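import Mathlib

namespace Pool.Agent.Results.MP_6132b6_co.Sqrt
open Finset

/-- a simplex of `VR(Q_n; r)`: a nonempty vertex set of Hamming diameter at most `r` -/
def IsSimplex {n : ℕ} (r : ℕ) (S : Finset (Fin n → Bool)) : Prop :=
  S.Nonempty ∧ ∀ a ∈ S, ∀ b ∈ S, hammingDist a b ≤ r

/-- a facet: a simplex not properly contained in another simplex -/
def IsFacet {n : ℕ} (r : ℕ) (S : Finset (Fin n → Bool)) : Prop :=
  IsSimplex r S ∧ ∀ T, IsSimplex r T → S ⊆ T → T = S

lemma ham {n : ℕ} (a b : Fin n → Bool) :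
    hammingDist a b = ∑ i, if a i ≠ b i then 1 else 0 := by
  unfold hammingDist; rw [Finset.card_filter]

lemma centre {n r : ℕ} (S : Finset (Fin n → Bool)) (hS : IsSimplex r S)
    (hr : 4 * (S.card : ℝ) ^ 2 * Real.log S.card < r) :
    ∃ J : Fin n → (Fin n → Bool), (∀ i, J i ∈ S) ∧ ∀ y ∈ S, hammingDist (fun i => J i i) y < r := by
  obtain ⟨hne, hd⟩ := hS
  have hk : (0:ℝ) < S.card := by exact_mod_cast hne.card_pos
  set k : ℝ := (S.card : ℝ) with hkdef
  set l : ℝ := 1 / (2 * k) with hl
  have hl0 : 0 < l := by positivity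
  let p : (Fin n → Bool) → Fin n → ℝ := fun y i => (∑ a ∈ S, if a i ≠ y i then (1:ℝ) else 0) / k
  have hp : ∀ y i, 0 ≤ p y i := fun y i =>
    div_nonneg (Finset.sum_nonneg fun a _ => by split_ifs <;> norm_num) hk.le
  let f : (Fin n → Bool) → Fin n → (Fin n → Bool) → ℝ :=
    fun y i a => (if a i ≠ y i then 1 + l else 1) / (1 + l * p y i)
  have hf : ∀ y i, ∑ a ∈ S, f y i a = k := by
    intro y i
    have h1 : 0 < 1 + l * p y i := by have := mul_nonneg hl0.le (hp y i); linarith
    simp only [f]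
    rw [← Finset.sum_div, div_eq_iff h1.ne']
    have : ∀ a : Fin n → Bool, (if a i ≠ y i then 1 + l else 1)
        = 1 + l * (if a i ≠ y i then (1:ℝ) else 0) := fun a => by split_ifs <;> ring
    rw [Finset.sum_congr rfl fun a _ => this a, Finset.sum_add_distrib, ← Finset.mul_sum]
    simp only [p, Finset.sum_const, nsmul_eq_mul, mul_one]
    rw [← hkdef]
    field_simp
  have tot : ∑ J ∈ Fintype.piFinset (fun _ : Fin n => S), ∑ y ∈ S, ∏ i, f y i (J i)
      ≤ ∑ _J ∈ Fintype.piFinset (fun _ : Fin n => S), k := by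
    rw [Finset.sum_comm]
    have : ∀ y ∈ S, ∑ J ∈ Fintype.piFinset (fun _ : Fin n => S), ∏ i, f y i (J i) = k ^ n := by
      intro y _
      rw [← Finset.prod_univ_sum]
      simp [hf]
    rw [Finset.sum_congr rfl this]
    simp only [Finset.sum_const, nsmul_eq_mul, Fintype.card_piFinset, Finset.prod_const,
      Finset.card_univ, Fintype.card_fin]
    push_cast
    rw [← hkdef, mul_comm]
  obtain ⟨J, hJ, hle⟩ := Finset.exists_le_of_sum_le
    (Fintype.piFinset_nonempty.mpr fun _ => hne) tot
  refine ⟨J, fun i => Fintype.mem_piFinset.mp hJ i, fun y hy => ?_⟩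
  have hf0 : ∀ y i a, 0 ≤ f y i a := fun y i a => by
    have := mul_nonneg hl0.le (hp y i)
    exact div_nonneg (by split_ifs <;> linarith) (by linarith)
  have h1 : ∏ i, f y i (J i) ≤ k := le_trans (Finset.single_le_sum
    (f := fun y => ∏ i, f y i (J i)) (fun y _ => Finset.prod_nonneg fun i _ => hf0 _ _ _) hy) hle
  have h2 : ∏ i, f y i (J i) = (1 + l) ^ hammingDist (fun i => J i i) y / ∏ i, (1 + l * p y i) := by
    simp only [f]
    rw [Finset.prod_div_distrib, ham, ← Finset.prod_pow_eq_pow_sum]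
    congr 1
    exact Finset.prod_congr rfl fun i _ => by split_ifs <;> simp
  have h3 : ∑ i, p y i ≤ r - r / k := by
    simp only [p]
    rw [← Finset.sum_div, Finset.sum_comm, div_le_iff₀ hk]
    have : ∀ a ∈ S, (∑ i, if a i ≠ y i then (1:ℝ) else 0) ≤ r - if a = y then (r:ℝ) else 0 := by
      intro a ha
      by_cases e : a = y
      · subst e; simp
      · have := hd a ha y hy
        rw [ham] at this
        rw [if_neg e, sub_zero]
        exact_mod_cast this
    refine (Finset.sum_le_sum this).trans (le_of_eq ?_)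
    rw [Finset.sum_sub_distrib, Finset.sum_ite_eq', if_pos hy]
    simp only [Finset.sum_const, nsmul_eq_mul]
    rw [← hkdef]; field_simp
  have h4 : ∏ i, (1 + l * p y i) ≤ Real.exp (l * (r - r / k)) := by
    refine le_trans (Finset.prod_le_prod (fun i _ => by have := mul_nonneg hl0.le (hp y i); linarith)
      (fun i _ => (by have := Real.add_one_le_exp (l * p y i); linarith :
        1 + l * p y i ≤ Real.exp (l * p y i)))) ?_
    rw [← Real.exp_sum, ← Finset.mul_sum]
    exact Real.exp_le_exp.mpr (mul_le_mul_of_nonneg_left h3 hl0.le)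
  have h5 : 0 < ∏ i, (1 + l * p y i) :=
    Finset.prod_pos fun i _ => by have := mul_nonneg hl0.le (hp y i); linarith
  by_contra hc
  push Not at hc
  rw [h2, div_le_iff₀ h5] at h1
  have h6 : (1 + l) ^ r ≤ k * Real.exp (l * (r - r / k)) :=
    ((pow_le_pow_right₀ (by linarith) hc).trans h1).trans (mul_le_mul_of_nonneg_left h4 hk.le)
  have h7 := Real.log_le_log (by positivity) h6
  rw [Real.log_pow, Real.log_mul hk.ne' (Real.exp_pos _).ne', Real.log_exp] at h7
  have h8 : l - l ^ 2 ≤ Real.log (1 + l) := by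
    refine le_trans ?_ (Real.one_sub_inv_le_log_of_pos (by linarith))
    have : (1 + l)⁻¹ ≤ 1 - l + l ^ 2 := by
      rw [inv_le_comm₀ (by linarith) (by nlinarith), inv_le_iff_one_le_mul₀ (by nlinarith)]
      nlinarith [pow_pos hl0 3]
    linarith
  have h9 : (r:ℝ) * (l - l ^ 2) ≤ r * Real.log (1 + l) :=
    mul_le_mul_of_nonneg_left h8 (by positivity)
  have h10 : (r:ℝ) * (l - l ^ 2) - l * (r - r / k) = r / (4 * k ^ 2) := by
    rw [hl]; field_simp; ring
  have h11 : (r:ℝ) / (4 * k ^ 2) ≤ Real.log k := by linarith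
  rw [div_le_iff₀ (by positivity)] at h11
  linarith

theorem result : ∀ (r n : ℕ) (S : Finset (Fin n → Bool)), 1 ≤ r → r ^ 2 ≤ n → IsFacet r S →
    (r : ℝ) ≤ 4 * (S.card : ℝ) ^ 2 * Real.log S.card := by
  classical
  intro r n S hr hn ⟨hS, hmax⟩
  by_contra hc
  push Not at hc
  obtain ⟨J, hJ, hd⟩ := centre S hS hc
  obtain ⟨y0, hy0⟩ := hS.1
  have hk : (1:ℝ) ≤ S.card := by exact_mod_cast hS.1.card_pos
  have hkr : S.card ≤ r := by
    have h1 := Real.one_sub_inv_le_log_of_pos (x := S.card) (by linarith)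
    have h2 : 4 * (S.card : ℝ) ^ 2 * (1 - (S.card : ℝ)⁻¹) = 4 * S.card * (S.card - 1) := by
      field_simp
    have h3 := mul_le_mul_of_nonneg_left h1 (show 0 ≤ 4 * (S.card : ℝ) ^ 2 by positivity)
    have : (S.card : ℝ) < r + 1 := by nlinarith
    have : S.card < r + 1 := by exact_mod_cast this
    omega
  obtain ⟨c, hc0⟩ : ∃ c : Fin n, ∀ y ∈ S, y c = y0 c := by
    by_contra h
    push Not at h
    have sub : (univ : Finset (Fin n)) ⊆ (S.erase y0).biUnion
        (fun y => univ.filter (fun i => y i ≠ y0 i)) := by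
      intro i _
      obtain ⟨y, hy, hne⟩ := h i
      exact mem_biUnion.mpr ⟨y, mem_erase.mpr ⟨fun e => hne (by rw [e]), hy⟩, by simpa using hne⟩
    have h1 := (card_le_card sub).trans (card_biUnion_le_card_mul _ _ r
      (fun y hy => hS.2 y (mem_of_mem_erase hy) y0 hy0))
    rw [card_erase_of_mem hy0, card_univ, Fintype.card_fin] at h1
    have h2 : 1 ≤ S.card := hS.1.card_pos
    obtain ⟨m, hm⟩ : ∃ m, S.card = m + 1 := ⟨S.card - 1, by omega⟩
    rw [hm] at h1 hkr
    simp only [Nat.add_sub_cancel] at h1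
    nlinarith
  let x : Fin n → Bool := Function.update (fun i => J i i) c (!y0 c)
  have hx : ∀ y ∈ S, hammingDist x y ≤ r := by
    intro y hy
    have h1 : hammingDist x (fun i => J i i) ≤ 1 := by
      unfold hammingDist
      refine (card_le_card (t := {c}) fun i hi => ?_).trans (by simp)
      rw [mem_singleton]
      by_contra e
      simp [x, Function.update_of_ne e] at hi
    have h2 := hammingDist_triangle x (fun i => J i i) y
    have h3 := hd y hy
    omega
  have hT : IsSimplex r (insert x S) := by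
    refine ⟨insert_nonempty _ _, fun a ha b hb => ?_⟩
    rcases mem_insert.mp ha with rfl | ha' <;> rcases mem_insert.mp hb with rfl | hb'
    · simp
    · exact hx b hb'
    · rw [hammingDist_comm]; exact hx a ha'
    · exact hS.2 a ha' b hb'
  have hxS : x ∈ S := by rw [← hmax _ hT (subset_insert _ _)]; exact mem_insert_self _ _
  have := hc0 x hxS
  simp [x] at this

end Pool.Agent.Results.MP_6132b6_co.Sqrt
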